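import Mathlib
import Pool.Agent.Zk65.SE25

/-!
Brauer's inequality `k(B) ≤ |D|` and the structure of the defect group: if `D` has no direct factor
of order `p` (or `p = 2`) then `k(B) ≤ |D|` as soon as `l(b) ≤ p ^ 2` for some major subsection
`(u, b)`; the second elementary divisor of the Cartan matrix of a block is controlled by the
subgroups `R` of the defect group with `C(R)` not contained in `R`.
-/

namespace Pool.Agent.Results.MP_a15589_al.DefectGroupStructure

open Pool.Agent.H254R3.IN Pool.Agent.N20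
open scoped Classical in
/-- The product `|H|⁻¹ ∑ f(g) h(g⁻¹)` over the `p`-regular elements `g` of a finite group `H`. -/
noncomputable def regProd {H : Type} [Group H] (p : ℕ) (f h : H → ℂ) : ℂ :=
  (Nat.card H : ℂ)⁻¹ * ∑ᶠ g : H, if p ∣ orderOf g then 0 else f g * h g⁻¹

/-- All minors of order two of the (integral) matrix of the numbers `|Q| (θ, η)°`, `θ, η ∈ b`, where
`(θ, η)°` is the product over the `p`-regular elements, are divisible by `q`. (For a block `b` with
defect group `Q` this says that all elementary divisors of the Cartan matrix of `b` other than the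
largest one, `|Q|`, divide `|Q| / q`.) -/
def MinorsDivisible {H : Type} [Group H] (p : ℕ) (b : Set (H → ℂ)) (Q : Subgroup H) (q : ℕ) :
    Prop :=
  ∀ θ ∈ b, ∀ θ' ∈ b, ∀ η ∈ b, ∀ η' ∈ b, ∃ c : ℤ, (Nat.card Q : ℂ) ^ 2 *
    (regProd p θ η * regProd p θ' η' - regProd p θ η' * regProd p θ' η) = q * c

/-- `P` has no direct factor of order `p`. -/
def NoFactor (p : ℕ) (P : Type) [Group P] : Prop :=
  ∀ (R : Type) [Group R], IsEmpty (P ≃* R × Multiplicative (ZMod p))

/-- The finite `p`-group `P` is `q`-centric: every subgroup `R` of `P` with `1 < |P : R| < q`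
satisfies `|C_P(R) : Z(R)| ≤ p` and, if `p` is odd, contains all elements of order `p` of its
centralizer `C_P(R)`. This holds for example if `C_P(R) ≤ R` for all these subgroups `R`. -/
def Centric (p q : ℕ) (P : Type) [Group P] : Prop :=
  ∀ R : Subgroup P, Nat.card R < Nat.card P → Nat.card P < q * Nat.card R →
    Nat.card (Subgroup.centralizer (R : Set P)) ∣
        p * Nat.card (R ⊓ Subgroup.centralizer (R : Set P) : Subgroup P) ∧
      (p = 2 ∨ ∀ c ∈ Subgroup.centralizer (R : Set P), c ^ p = 1 → c ∈ R)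

/-- `P` is `p ^ s`-centric, or `s = 2` and `p = 2` or `P` has no direct factor of order `p`. -/
def Good (p s : ℕ) (P : Type) [Group P] : Prop :=
  Centric p (p ^ s) P ∨ (s = 2 ∧ (p = 2 ∨ NoFactor p P))

/-- For every `p`-subgroup `R` of `H` with `|Q| / q < |R| < |Q|`, every block `β` of `C_H(R)` with
`β^H = b` has only one irreducible Brauer character. -/
def LocalOne {H : Type} [Group H] (p : ℕ) (O : ValuationSubring ℂ) (b : Set (H → ℂ))
    (Q : Subgroup H) (q : ℕ) : Prop :=
  ∀ R : Subgroup H, IsPGroup p R → Nat.card R < Nat.card Q → Nat.card Q < q * Nat.card R →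
    ∀ β : Set (Subgroup.centralizer (R : Set H) → ℂ), IsBlock O β →
      Induces O b (Subgroup.centralizer (R : Set H)) β → lB p β = 1

/-- Let `B` be a `p`-block of a finite group `G` with defect group `D`, let `k(B)` be the number of
its irreducible characters and `k₀(B)` the number of those of height zero, and let `q = p ^ s`.

(1) If `D` is good (for example `s = 2` and `D` has no direct factor of order `p`) and has a central
element `z` with `|D : ⟨z⟩| ≤ q`, then `k(B) ≤ |D|`.

Let `s ≥ 2` and let `(u, b)` be a subsection of `B`: `u` is a `p`-element of `G` and `b` is a block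
of `C_G(u)` with `b^G = B` (for example `u = 1` and `b = B`); let `Q` be a defect group of `b` and
`l(b)` the number of irreducible Brauer characters of `b`.

(2) If `Q` is good (for example `s = 2` and `Q` has no direct factor of order `p`), or if the blocks
`β` of the centralizers of the `p`-subgroups `R` with `|Q| / q < |R| < |Q|` and `β` inducing `b`
satisfy `l(β) = 1`, then the minors of order two of `|Q| (θ, η)°` are divisible by `q`, and
`(q + 1) k₀(B) ≤ |Q| max(q + 1, l(b))`.

(3) If `(u, b)` is major, i.e. `|Q| = |D|`, and `D` is good (or the blocks `β` in (2) satisfy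
`l(β) = 1`), then `q k(B) + k₀(B) ≤ |D| max(q + 1, l(b) + q / p ^ 2 - 1)`,
`q k(B) ≤ |D| max(q, l(b) + q / p ^ 2 - 1)` and
`p ^ 2 k(B) + (q + 1 - p ^ 2) k₀(B) ≤ |D| max(q + 1, l(b))`.

In particular, if `D` has no direct factor of order `p` and `l(b) ≤ p ^ 2` for some major subsection
`(u, b)` then `k(B) ≤ |D|`. -/
theorem result {G : Type} [Group G] [Finite G] (p : ℕ) (hp : p.Prime) (O : ValuationSubring ℂ)
    (hO : (p : ℂ) ∈ O.nonunits) (B : Set (G → ℂ)) (hB : IsBlock O B) (D : Subgroup G)
    (hD : IsDefectGroup p O B D) :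
    (∀ s : ℕ, 1 ≤ s → Good p s D → ∀ z ∈ D, (∀ d ∈ D, z * d = d * z) →
      Nat.card D ≤ p ^ s * orderOf z → Nat.card B ≤ Nat.card D) ∧
    (∀ (u : G) (k : ℕ), orderOf u = p ^ k →
      ∀ b : Set (Subgroup.centralizer ({u} : Set G) → ℂ), IsBlock O b →
      ∀ Q : Subgroup (Subgroup.centralizer ({u} : Set G)), IsDefectGroup p O b Q →
      Induces O B (Subgroup.centralizer ({u} : Set G)) b → ∀ s : ℕ, 2 ≤ s →
      ((Good p s Q ∨ LocalOne p O b Q (p ^ s)) →
        MinorsDivisible p b Q (p ^ s) ∧
        (p ^ s + 1) * Nat.card {χ : G → ℂ // χ ∈ B ∧ HeightZero p D χ} ≤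
          Nat.card Q * max (p ^ s + 1) (lB p b)) ∧
      (Nat.card Q = Nat.card D → (Good p s D ∨ LocalOne p O b Q (p ^ s)) →
        p ^ s * Nat.card B + Nat.card {χ : G → ℂ // χ ∈ B ∧ HeightZero p D χ} ≤
          Nat.card D * max (p ^ s + 1) (lB p b + p ^ (s - 2) - 1) ∧
        p ^ s * Nat.card B ≤ Nat.card D * max (p ^ s) (lB p b + p ^ (s - 2) - 1) ∧
        p ^ 2 * Nat.card B +
            (p ^ s + 1 - p ^ 2) * Nat.card {χ : G → ℂ // χ ∈ B ∧ HeightZero p D χ} ≤
          Nat.card D * max (p ^ s + 1) (lB p b))) := by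
  have := Fintype.ofFinite G
  classical
  haveI : Fact (Nat.Prime p) := ⟨hp⟩
  have hgood : ∀ (s : ℕ) (P : Type) [Group P] [Finite P], IsPGroup p P → Good p s P →
      Pool.Agent.Zk65.SE.Cond p (p ^ s) P := by
    intro s P _ _ hP h
    rcases h with h | ⟨rfl, h⟩
    · exact h
    · exact Pool.Agent.Zk65.SE.cond_sq hP h
  have hDp := Pool.Agent.N20.defect_pgroup hD
  refine ⟨?_, ?_⟩
  · intro s hs h z hzD hz hidx
    exact Pool.Agent.Zk65.SE.central_bound hp hO hB hD hs (hgood s D hDp h) hzD hz hidx
  · intro u k hu b hb Q hQ hbB s hs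
    have hreg : ∀ f h : Subgroup.centralizer ({u} : Set G) → ℂ,
        regProd p f h = Pool.Agent.Helper884.IC.B (cut p f) h := by
      intro f h
      unfold regProd Pool.Agent.Helper884.IC.B
      rw [finsum_eq_sum_of_fintype]
      congr 1
      refine Finset.sum_congr rfl fun g _ => ?_
      unfold cut
      split_ifs
      · rw [zero_mul]
      · rfl
    have hiff : MinorsDivisible p b Q (p ^ s) ↔
        Pool.Agent.Zk65.SE.MinorsDvd p b Q (p ^ s) := by
      unfold MinorsDivisible Pool.Agent.Zk65.SE.MinorsDvd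
      simp only [hreg]
    have hs1 : 1 ≤ s := by omega
    have hone : 1 ≤ p ^ (s - 2) := Nat.one_le_pow _ _ hp.pos
    have hmin2 : min s 2 = 2 := min_eq_right hs
    have hmin : p ^ 2 ≤ p ^ s := Nat.pow_le_pow_right hp.pos hs
    have hQp := Pool.Agent.N20.defect_pgroup hQ
    have hminors : (Good p s Q ∨ LocalOne p O b Q (p ^ s)) →
        Pool.Agent.Zk65.SE.MinorsDvd p b Q (p ^ s) := by
      intro h
      rcases h with h | h
      · exact Pool.Agent.Zk65.SE.minors_structure hO hb hQ hs1
          (Pool.Agent.Zk65.SE.locCond_of_cond (hgood s Q hQp h))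
      · exact Pool.Agent.Zk65.SE.minors_blocks hO hb hQ hs1 h
    refine ⟨?_, ?_⟩
    · intro h
      have hq := hminors h
      refine ⟨hiff.mpr hq, ?_⟩
      have h1 := Pool.Agent.Zk65.SE.height_q hp hO hB hD hu hb hQ hbB hs1 hq
      exact_mod_cast h1
    · intro hcard h
      have hq : Pool.Agent.Zk65.SE.MinorsDvd p b Q (p ^ s) := by
        rcases h with h | h
        · obtain ⟨hRp, hCC⟩ := Pool.Agent.Zk65.SE.zpowers_CC hu
          obtain ⟨e⟩ := Pool.Agent.Zk65.SE.defect_iso hO hB hD hRp hCC hb hQ hbB hcard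
          exact Pool.Agent.Zk65.SE.minors_structure hO hb hQ hs1
            (Pool.Agent.Zk65.SE.locCond_of_cond
              (Pool.Agent.Zk65.SE.cond_equiv e.symm (hgood s D hDp h)))
        · exact hminors (Or.inr h)
      obtain ⟨⟨h1, h2, h3⟩, -⟩ :=
        Pool.Agent.Zk65.SE.major_q hp hO hB hD hu hb hQ hcard hbB hs1 hq
      rw [hmin2] at h1
      have e1 : ((lB p b + p ^ (s - 2) - 1 : ℕ) : ℤ) = lB p b + (p : ℤ) ^ (s - 2) - 1 := by
        rw [Nat.cast_sub (by omega)]
        push_cast
        ring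
      have e2 : ((p ^ s + 1 - p ^ 2 : ℕ) : ℤ) = (p : ℤ) ^ s + 1 - (p : ℤ) ^ 2 := by
        rw [Nat.cast_sub (by omega)]
        push_cast
        ring
      refine ⟨?_, ?_, ?_⟩
      · rw [← e1] at h2
        exact_mod_cast h2
      · rw [← e1] at h3
        exact_mod_cast h3
      · rw [← e2] at h1
        exact_mod_cast h1

end Pool.Agent.Results.MP_a15589_al.DefectGroupStructure
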