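import Mathlib
import Pool.Agent.Zk65.HZ8
import Pool.Agent.Zk65.SE25

/-!
Characters of height zero of a `p`-block `B` and subsections `(u, b)` of `B`: an improvement of the
inequality `k₀(B) ≤ |Q| √ l(b)` of Robinson, `Q` a defect group of `b`, in which `l(b)` is
essentially divided by `(p + 2) / 4`, and its form for several subsections, which bounds `k(B)` by
the number of the classes of major subsections.
-/

namespace Pool.Agent.Results.MP_a15589_al.HeightZeroCharacters

open Pool.Agent.H254R3.IN Pool.Agent.N20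
open scoped Classical in
/-- The product `|H|⁻¹ ∑ f(g) h(g⁻¹)` over the `p`-regular elements `g` of a finite group `H`. -/
noncomputable def regProd {H : Type} [Group H] (p : ℕ) (f h : H → ℂ) : ℂ :=
  (Nat.card H : ℂ)⁻¹ * ∑ᶠ g : H, if p ∣ orderOf g then 0 else f g * h g⁻¹

/-- All minors of order two of the (integral) matrix of the numbers `|Q| (θ, η)°`, `θ, η ∈ b`, where
`(θ, η)°` is the product over the `p`-regular elements, are divisible by `q`. (For a block `b` with
defect group `Q` this says that all elementary divisors of the Cartan matrix of `b` other than the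
largest one, `|Q|`, divide `|Q| / q`.) -/
def MinorsDivisible {H : Type} [Group H] (p : ℕ) (b : Set (H → ℂ)) (Q : Subgroup H) (q : ℕ) :
    Prop :=
  ∀ θ ∈ b, ∀ θ' ∈ b, ∀ η ∈ b, ∀ η' ∈ b, ∃ c : ℤ, (Nat.card Q : ℂ) ^ 2 *
    (regProd p θ η * regProd p θ' η' - regProd p θ η' * regProd p θ' η) = q * c

/-- `P` has no direct factor of order `p`. -/
def NoFactor (p : ℕ) (P : Type) [Group P] : Prop :=
  ∀ (R : Type) [Group R], IsEmpty (P ≃* R × Multiplicative (ZMod p))

/-- `q` is admissible for the block `b` of `H` with defect group `Q`: `q = p`, or `q = p ^ 2` and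
`p = 2` or `Q` has no direct factor of order `p`, or `q ≥ 2` divides the minors above. -/
def Admissible {H : Type} [Group H] (p : ℕ) (b : Set (H → ℂ)) (Q : Subgroup H) (q : ℕ) : Prop :=
  q = p ∨ (q = p ^ 2 ∧ (p = 2 ∨ NoFactor p Q)) ∨ (2 ≤ q ∧ MinorsDivisible p b Q q)

/-- `s = (u, b)` is a `B`-subsection: `u` is a `p`-element of `G` and `b` is a block of `C_G(u)`
with `b ^ G = B` (for example `u = 1` and `b = B`); the defect groups of `b` have order `d`, and
the number `q` is admissible for `b`. -/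
def IsSubsection {G : Type} [Group G] (p : ℕ) (O : ValuationSubring ℂ) (B : Set (G → ℂ))
    (s : (u : G) × Set (Subgroup.centralizer ({u} : Set G) → ℂ)) (d q : ℕ) : Prop :=
  (∃ k, orderOf s.1 = p ^ k) ∧ IsBlock O s.2 ∧
    Induces O B (Subgroup.centralizer ({s.1} : Set G)) s.2 ∧
    ∃ Q : Subgroup (Subgroup.centralizer ({s.1} : Set G)),
      IsDefectGroup p O s.2 Q ∧ Nat.card Q = d ∧ Admissible p s.2 Q q

/-- `k(B)`, the number of irreducible characters in `B` -/
noncomputable def kB {G : Type} (B : Set (G → ℂ)) : ℝ := Nat.card B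

/-- `k₀(B)`, the number of irreducible characters of height zero in the block `B` with defect
group `D` -/
noncomputable def k₀B {G : Type} [Group G] (p : ℕ) (D : Subgroup G) (B : Set (G → ℂ)) : ℝ :=
  Nat.card {χ : G → ℂ // χ ∈ B ∧ HeightZero p D χ}

/-- Let `B` be a `p`-block of a finite group `G` with defect group `D`.

(1) Let `s = (u, b)` be a `B`-subsection, `d = |Q|` the order of the defect groups `Q` of `b`,
`l(b)` the number of irreducible Brauer characters of `b`, and let `q` be admissible for `b` (for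
example `q = p`). Then `(q + 2) k₀(B)² ≤ (q - 2) d k₀(B) + 4 d² l(b)`, and therefore
`k₀(B) ≤ d (1 + 2 √(l(b) / (q + 2)))`. If `(u, b)` is major, i.e. `d = |D|`, then even
`(q + 2) k₀(B)² + 8 k₀(B) (k(B) - k₀(B)) ≤ (q - 2) d k₀(B) + 4 d² l(b)`.

(2) Let `S` be a finite set of pairwise non-conjugate `B`-subsections `s = (u, b)` (represented in
such a way that conjugate elements `u` are equal), with `d s` and `q s` as in (1). Then the sum of
`((q s + 2) k₀(B) - (q s - 2) d s + ε s) / (d s)²` over `S` is at most `4`, where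
`ε s = 4 (k(B) - k₀(B))` for the major subsections `s` and `ε s = 0` for the others.

(3) If `S` as in (2) consists of `r` major subsections then
`r (4 k(B) + (p - 2) k₀(B)) ≤ r (p - 2) |D| + 4 |D|²`. In particular, if all characters in `B` have
height zero (for example if `D` is abelian) then `k(B) ≤ |D| (p - 2 + 4 |D| / r) / (p + 2)`. -/
theorem result {G : Type} [Group G] [Finite G] (p : ℕ) (hp : p.Prime) (O : ValuationSubring ℂ)
    (hO : (p : ℂ) ∈ O.nonunits) (B : Set (G → ℂ)) (hB : IsBlock O B) (D : Subgroup G)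
    (hD : IsDefectGroup p O B D) :
    (∀ (s : (u : G) × Set (Subgroup.centralizer ({u} : Set G) → ℂ)) (d q : ℕ),
      IsSubsection p O B s d q →
      (q + 2) * k₀B p D B ^ 2 ≤ (q - 2) * d * k₀B p D B + 4 * (d : ℝ) ^ 2 * lB p s.2 ∧
      k₀B p D B ≤ d * (1 + 2 * √(lB p s.2 / (q + 2))) ∧
      (d = Nat.card D → (q + 2) * k₀B p D B ^ 2 + 8 * k₀B p D B * (kB B - k₀B p D B) ≤
        (q - 2) * d * k₀B p D B + 4 * (d : ℝ) ^ 2 * lB p s.2)) ∧
    (∀ (S : Finset ((u : G) × Set (Subgroup.centralizer ({u} : Set G) → ℂ)))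
      (d q : ((u : G) × Set (Subgroup.centralizer ({u} : Set G) → ℂ)) → ℕ),
      (∀ s ∈ S, IsSubsection p O B s (d s) (q s)) →
      (∀ s ∈ S, ∀ s' ∈ S, IsConj s.1 s'.1 → s.1 = s'.1) →
      ∑ s ∈ S, ((q s + 2) * k₀B p D B - (q s - 2) * d s +
        (if d s = Nat.card D then 4 * (kB B - k₀B p D B) else 0)) / (d s : ℝ) ^ 2 ≤ 4) ∧
    (∀ S : Finset ((u : G) × Set (Subgroup.centralizer ({u} : Set G) → ℂ)),
      (∀ s ∈ S, IsSubsection p O B s (Nat.card D) p) →
      (∀ s ∈ S, ∀ s' ∈ S, IsConj s.1 s'.1 → s.1 = s'.1) →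
      S.card * (4 * kB B + (p - 2) * k₀B p D B) ≤
        S.card * (p - 2) * Nat.card D + 4 * (Nat.card D : ℝ) ^ 2) := by
  have := Fintype.ofFinite G
  classical
  haveI : Fact (Nat.Prime p) := ⟨hp⟩
  have hp2 := hp.two_le
  -- admissible numbers
  have hadm : ∀ (H : Type) [Group H] [Fintype H] (b : Set (H → ℂ)) (Q : Subgroup H) (q : ℕ),
      IsBlock O b → IsDefectGroup p O b Q → Admissible p b Q q →
      2 ≤ q ∧ Pool.Agent.Zk65.SE.MinorsDvd p b Q q := by
    intro H _ _ b Q q hb hQ h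
    have hQp := Pool.Agent.N20.defect_pgroup hQ
    rcases h with rfl | ⟨rfl, h⟩ | ⟨h2, h⟩
    · refine ⟨hp2, ?_⟩
      have h1 : Pool.Agent.Zk65.SE.Cond q (q ^ 1) Q := by
        intro R h3 h4
        exfalso
        obtain ⟨a, ha⟩ := IsPGroup.iff_card.mp hQp
        obtain ⟨c, hc⟩ := IsPGroup.iff_card.mp (hQp.to_subgroup R)
        rw [ha, hc] at h3 h4
        have h5 := (Nat.pow_lt_pow_iff_right hp.one_lt).mp h3
        rw [← pow_add] at h4
        have h6 := (Nat.pow_lt_pow_iff_right hp.one_lt).mp h4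
        omega
      have h2 := Pool.Agent.Zk65.SE.minors_structure hO hb hQ le_rfl
        (Pool.Agent.Zk65.SE.locCond_of_cond h1)
      rwa [pow_one] at h2
    · refine ⟨?_, ?_⟩
      · calc 2 ≤ p := hp2
          _ ≤ p ^ 2 := Nat.le_self_pow (by norm_num) p
      · exact Pool.Agent.Zk65.SE.minors_structure hO hb hQ one_le_two
          (Pool.Agent.Zk65.SE.locCond_of_cond (Pool.Agent.Zk65.SE.cond_sq hQp h))
    · refine ⟨h2, ?_⟩
      have hreg : ∀ f h : H → ℂ, regProd p f h =
          Pool.Agent.Helper884.IC.B (cut p f) h := by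
        intro f h
        unfold regProd Pool.Agent.Helper884.IC.B
        rw [finsum_eq_sum_of_fintype]
        congr 1
        refine Finset.sum_congr rfl fun g _ => ?_
        unfold cut
        split_ifs
        · rw [zero_mul]
        · rfl
      unfold MinorsDivisible at h
      unfold Pool.Agent.Zk65.SE.MinorsDvd
      simpa only [hreg] using h
  have hk₀ : k₀B p D B = ((Pool.Agent.Zk65.HZ.I0 p D B).card : ℝ) := by
    unfold k₀B
    rw [Pool.Agent.Zk65.HZ.card_I0 hB]
  have hk : kB B - k₀B p D B = ((Pool.Agent.Zk65.HZ.J0 p D B).card : ℝ) := by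
    rw [hk₀]
    unfold kB
    rw [← Pool.Agent.Zk65.HZ.card_J0 (p := p) (D := D) hB]
    push_cast
    ring
  have part2 : ∀ (S : Finset ((u : G) × Set (Subgroup.centralizer ({u} : Set G) → ℂ)))
      (d q : ((u : G) × Set (Subgroup.centralizer ({u} : Set G) → ℂ)) → ℕ),
      (∀ s ∈ S, IsSubsection p O B s (d s) (q s)) →
      (∀ s ∈ S, ∀ s' ∈ S, IsConj s.1 s'.1 → s.1 = s'.1) →
      ∑ s ∈ S, ((q s + 2) * k₀B p D B - (q s - 2) * d s +
        (if d s = Nat.card D then 4 * (kB B - k₀B p D B) else 0)) / (d s : ℝ) ^ 2 ≤ 4 := by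
    intro S d q hS hconj
    rw [hk, hk₀]
    refine Pool.Agent.Zk65.HZ.several_sub hp hO hB hD S d q ?_ hconj
    intro s hs
    obtain ⟨hu, hb, hbB, Q, hQ, hd, hq⟩ := hS s hs
    obtain ⟨h2, h3⟩ := hadm _ s.2 Q (q s) hb hQ hq
    exact ⟨hu, hb, hbB, h2, Q, hQ, hd, h3⟩
  refine ⟨?_, part2, ?_⟩
  · rintro s d q ⟨⟨k, hu⟩, hb, hbB, Q, hQ, rfl, hq⟩
    obtain ⟨h2, h3⟩ := hadm _ s.2 Q q hb hQ hq
    have h1 := Pool.Agent.Zk65.HZ.one_sub hp hO hB hD hu hb hQ hbB h2 h3
    rw [← hk₀, ← hk] at h1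
    have hk₀0 : 0 ≤ k₀B p D B := by rw [hk₀]; exact Nat.cast_nonneg _
    have hk0 : 0 ≤ kB B - k₀B p D B := by rw [hk]; exact Nat.cast_nonneg _
    have h4 : (q + 2) * k₀B p D B ^ 2 ≤
        (q - 2) * Nat.card Q * k₀B p D B + 4 * (Nat.card Q : ℝ) ^ 2 * lB p s.2 := by
      refine le_trans ?_ h1
      have : 0 ≤ (if Nat.card Q = Nat.card D then
          8 * k₀B p D B * (kB B - k₀B p D B) else 0) := by
        split_ifs
        · exact mul_nonneg (mul_nonneg (by norm_num) hk₀0) hk0
        · exact le_rfl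
      linarith
    refine ⟨h4, ?_, ?_⟩
    · set x : ℝ := √(lB p s.2 / (q + 2)) with hx
      have hq0 : (0 : ℝ) < (q : ℝ) + 2 := by positivity
      have hx0 : 0 ≤ x := Real.sqrt_nonneg _
      have hx2 : x ^ 2 * ((q : ℝ) + 2) = lB p s.2 := by
        rw [hx, Real.sq_sqrt (by positivity)]
        field_simp
      have hd0 : (0 : ℝ) < Nat.card Q := by exact_mod_cast Nat.card_pos
      have hq2 : (2 : ℝ) ≤ q := by exact_mod_cast h2
      by_contra hcon
      push Not at hcon
      rw [← hx2] at h4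
      set d : ℝ := (Nat.card Q : ℝ) with hd
      set κ := k₀B p D B with hκ
      -- `κ > d (1 + 2 x)`
      have g1 : ((q : ℝ) + 2) * (d * (1 + 2 * x)) - (q - 2) * d ≤ (q + 2) * κ - (q - 2) * d := by
        have := mul_le_mul_of_nonneg_left hcon.le hq0.le
        linarith
      have g2 : d * (4 + 2 * x * (q + 2)) ≤ (q + 2) * κ - (q - 2) * d := by
        refine le_trans (le_of_eq ?_) g1
        ring
      have g3 : 0 < d * (4 + 2 * x * ((q : ℝ) + 2)) := by positivity
      have g4 : 0 < d * (1 + 2 * x) := by positivity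
      have g5 : d * (1 + 2 * x) * (d * (4 + 2 * x * ((q : ℝ) + 2))) <
          κ * ((q + 2) * κ - (q - 2) * d) := by
        calc d * (1 + 2 * x) * (d * (4 + 2 * x * ((q : ℝ) + 2)))
            < κ * (d * (4 + 2 * x * ((q : ℝ) + 2))) := mul_lt_mul_of_pos_right hcon g3
          _ ≤ _ := mul_le_mul_of_nonneg_left g2 hk₀0
      have g6 : κ * ((q + 2) * κ - (q - 2) * d) ≤ 4 * d ^ 2 * (x ^ 2 * (q + 2)) := by linarith
      have g7 : 4 * d ^ 2 * (x ^ 2 * ((q : ℝ) + 2)) ≤
          d * (1 + 2 * x) * (d * (4 + 2 * x * ((q : ℝ) + 2))) := by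
        have e : d * (1 + 2 * x) * (d * (4 + 2 * x * ((q : ℝ) + 2))) =
            4 * d ^ 2 * (x ^ 2 * ((q : ℝ) + 2)) +
              d ^ 2 * (4 + 2 * x * ((q : ℝ) + 2) + 8 * x) := by ring
        rw [e]
        have : 0 ≤ d ^ 2 * (4 + 2 * x * ((q : ℝ) + 2) + 8 * x) := by positivity
        linarith
      linarith
    · intro hcard
      rw [if_pos hcard] at h1
      exact h1
  · intro S hS hconj
    have h1 := part2 S (fun _ => Nat.card D) (fun _ => p) hS hconj
    have hd0 : (0 : ℝ) < Nat.card D := by exact_mod_cast Nat.card_pos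
    simp only [if_true, Finset.sum_const, nsmul_eq_mul] at h1
    rw [← mul_div_assoc, div_le_iff₀ (by positivity)] at h1
    linarith

end Pool.Agent.Results.MP_a15589_al.HeightZeroCharacters
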