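import Mathlib
import Pool.Agent.Zk65.SE14

/-!
Brauer's inequality `k(B) ≤ |D|` for blocks having a major subsection `(u, b)` such that the number
of irreducible Brauer characters of `b` is at most `q - q / p ^ 2 + 1`, where `|D| / q` is the second
largest elementary divisor of the Cartan matrix of `b`.
-/

namespace Pool.Agent.Results.MP_a15589_al.SecondElementaryDivisor

open Pool.Agent.H254R3.IN Pool.Agent.N20
open scoped Classical in
/-- The product `|H|⁻¹ ∑ f(g) h(g⁻¹)` over the `p`-regular elements `g` of a finite group `H`. -/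
noncomputable def regProd {H : Type} [Group H] (p : ℕ) (f h : H → ℂ) : ℂ :=
  (Nat.card H : ℂ)⁻¹ * ∑ᶠ g : H, if p ∣ orderOf g then 0 else f g * h g⁻¹

/-- All minors of order two of the (integral) matrix of the numbers `|Q| (θ, η)°`, `θ, η ∈ b`, where
`(θ, η)°` is the product over the `p`-regular elements, are divisible by `q`. (For a block `b` with
defect group `Q` this is the matrix `|Q| A C⁻¹ Aᵗ` with the decomposition matrix `A` and the Cartan
matrix `C` of `b`, so the condition says that all elementary divisors of `C` other than the largest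
one, `|Q|`, divide `|Q| / q`.) -/
def MinorsDivisible {H : Type} [Group H] (p : ℕ) (b : Set (H → ℂ)) (Q : Subgroup H) (q : ℕ) :
    Prop :=
  ∀ θ ∈ b, ∀ θ' ∈ b, ∀ η ∈ b, ∀ η' ∈ b, ∃ c : ℤ, (Nat.card Q : ℂ) ^ 2 *
    (regProd p θ η * regProd p θ' η' - regProd p θ η' * regProd p θ' η) = q * c

/-- Let `B` be a `p`-block of a finite group `G` with defect group `D`, let `k(B)` be the number of
its irreducible characters and `k₀(B)` the number of those of height zero. Let `(u, b)` be a
subsection of `B`: `u` is a `p`-element of `G` and `b` is a block of `C_G(u)` with `b^G = B` (for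
example `u = 1` and `b = B`), let `Q` be a defect group of `b` and `l(b)` the number of irreducible
Brauer characters of `b`. Let `q = p ^ s`, `s ≥ 2`.

(1) If no `p`-regular element `g` of `C_G(u)` satisfies `|Q| / q < |C(g)|_p < |Q|` (centralizers in
`C_G(u)`) then the minors of order two of `|Q| (θ, η)°` are divisible by `q`.

(2) Suppose that these minors are divisible by `q`. Then `(q + 1) k₀(B) ≤ |Q| max(q + 1, l(b))`. If
`(u, b)` is major, i.e. `|Q| = |D|`, then
`q k(B) + k₀(B) ≤ |D| max(q + 1, l(b) + q / p ^ 2 - 1)`,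
`q k(B) ≤ |D| max(q, l(b) + q / p ^ 2 - 1)` and
`p ^ 2 k(B) + (q + 1 - p ^ 2) k₀(B) ≤ |D| max(q + 1, l(b))`.
If moreover `q = |D|`, or if `|D| (θ, θ)° < q` for some character `θ ∈ b` of height zero, then
`(q + 1) k(B) ≤ |D| max(q + 1, l(b))`.

In particular `k₀(B) ≤ |Q|` if `l(b) ≤ q + 1`; `k(B) ≤ |D|` if `(u, b)` is major and
`l(b) ≤ q - q / p ^ 2 + 1`; and `k(B) ≤ |D|` if `(u, b)` is major, `q = |D|` and
`l(b) ≤ |D| + 1`. -/
theorem result {G : Type} [Group G] [Finite G] (p : ℕ) (hp : p.Prime) (O : ValuationSubring ℂ)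
    (hO : (p : ℂ) ∈ O.nonunits) (B : Set (G → ℂ)) (hB : IsBlock O B) (D : Subgroup G)
    (hD : IsDefectGroup p O B D) (u : G) (k : ℕ) (hu : orderOf u = p ^ k)
    (b : Set (Subgroup.centralizer ({u} : Set G) → ℂ)) (hb : IsBlock O b)
    (Q : Subgroup (Subgroup.centralizer ({u} : Set G))) (hQ : IsDefectGroup p O b Q)
    (hbB : Induces O B (Subgroup.centralizer ({u} : Set G)) b) (s : ℕ) (hs : 2 ≤ s) :
    ((∀ g : Subgroup.centralizer ({u} : Set G), ¬ p ∣ orderOf g →
        ¬ (Nat.card Q < p ^ s * p ^ (Nat.card (Subgroup.centralizer ({g} : Set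
            (Subgroup.centralizer ({u} : Set G))))).factorization p ∧
          p ^ (Nat.card (Subgroup.centralizer ({g} : Set
            (Subgroup.centralizer ({u} : Set G))))).factorization p < Nat.card Q)) →
      MinorsDivisible p b Q (p ^ s)) ∧
    (MinorsDivisible p b Q (p ^ s) →
      (p ^ s + 1) * Nat.card {χ : G → ℂ // χ ∈ B ∧ HeightZero p D χ} ≤
        Nat.card Q * max (p ^ s + 1) (lB p b) ∧
      (Nat.card Q = Nat.card D →
        p ^ s * Nat.card B + Nat.card {χ : G → ℂ // χ ∈ B ∧ HeightZero p D χ} ≤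
          Nat.card D * max (p ^ s + 1) (lB p b + p ^ (s - 2) - 1) ∧
        p ^ s * Nat.card B ≤ Nat.card D * max (p ^ s) (lB p b + p ^ (s - 2) - 1) ∧
        p ^ 2 * Nat.card B +
            (p ^ s + 1 - p ^ 2) * Nat.card {χ : G → ℂ // χ ∈ B ∧ HeightZero p D χ} ≤
          Nat.card D * max (p ^ s + 1) (lB p b) ∧
        ((Nat.card D = p ^ s ∨ ∃ θ ∈ b, HeightZero p Q θ ∧
            ∃ m : ℕ, m < p ^ s ∧ (m : ℂ) = Nat.card D * regProd p θ θ) →
          (p ^ s + 1) * Nat.card B ≤ Nat.card D * max (p ^ s + 1) (lB p b)))) := by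
  have := Fintype.ofFinite G
  classical
  haveI : Fact (Nat.Prime p) := ⟨hp⟩
  have hreg : ∀ f h : Subgroup.centralizer ({u} : Set G) → ℂ,
      regProd p f h = Pool.Agent.Helper884.IC.B (cut p f) h := by
    intro f h
    unfold regProd Pool.Agent.Helper884.IC.B
    rw [finsum_eq_sum_of_fintype]
    congr 1
    refine Finset.sum_congr rfl fun g _ => ?_
    unfold cut
    split_ifs
    · rw [zero_mul]
    · rfl
  have hiff : MinorsDivisible p b Q (p ^ s) ↔ Pool.Agent.Zk65.SE.MinorsDvd p b Q (p ^ s) := by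
    unfold MinorsDivisible Pool.Agent.Zk65.SE.MinorsDvd
    simp only [hreg]
  have hone : 1 ≤ p ^ (s - 2) := Nat.one_le_pow _ _ hp.pos
  have hmin2 : min s 2 = 2 := min_eq_right hs
  have hmin : p ^ 2 ≤ p ^ s := Nat.pow_le_pow_right hp.pos hs
  have hs1 : 1 ≤ s := by omega
  refine ⟨?_, ?_⟩
  · intro hcl
    rw [hiff]
    refine Pool.Agent.Zk65.SE.minors_of_classes hO hb hQ hs1 ?_
    intro g hg i hi his hne
    obtain ⟨d, hd⟩ := IsPGroup.iff_card.mp (Pool.Agent.N20.defect_pgroup hQ)
    have hfd : (Nat.card Q).factorization p = d := by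
      rw [hd, hp.factorization_pow, Finsupp.single_eq_same]
    rw [hfd] at hne
    refine hcl g hg ⟨?_, ?_⟩
    · rw [hd, ← pow_add]
      exact Nat.pow_lt_pow_right hp.one_lt (by omega)
    · rw [hd]
      exact Nat.pow_lt_pow_right hp.one_lt (by omega)
  · intro hq
    rw [hiff] at hq
    refine ⟨?_, ?_⟩
    · have h1 := Pool.Agent.Zk65.SE.height_q hp hO hB hD hu hb hQ hbB hs1 hq
      exact_mod_cast h1
    · intro hcard
      obtain ⟨⟨h1, h2, h3⟩, h4⟩ :=
        Pool.Agent.Zk65.SE.major_q hp hO hB hD hu hb hQ hcard hbB hs1 hq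
      rw [hmin2] at h1
      have e1 : ((lB p b + p ^ (s - 2) - 1 : ℕ) : ℤ) = lB p b + (p : ℤ) ^ (s - 2) - 1 := by
        rw [Nat.cast_sub (by omega)]
        push_cast
        ring
      have e2 : ((p ^ s + 1 - p ^ 2 : ℕ) : ℤ) = (p : ℤ) ^ s + 1 - (p : ℤ) ^ 2 := by
        rw [Nat.cast_sub (by omega)]
        push_cast
        ring
      refine ⟨?_, ?_, ?_, ?_⟩
      · rw [← e1] at h2
        exact_mod_cast h2
      · rw [← e1] at h3
        exact_mod_cast h3
      · rw [← e2] at h1
        exact_mod_cast h1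
      · intro h
        have h5 := h4 (by
          rcases h with h | ⟨θ, hθ, hh, m, hm, hm'⟩
          · exact Pool.Agent.Zk65.SE.exists_small hp hO hb hQ hs1 (hcard.trans h)
          · refine ⟨θ, hθ, Pool.Agent.N20.uu_unit hO (hb.irr θ hθ) hh, m, ?_, ?_⟩
            · rw [hcard, ← hreg, ← hm']
              push_cast
              rfl
            · exact_mod_cast hm)
        exact_mod_cast h5

end Pool.Agent.Results.MP_a15589_al.SecondElementaryDivisor
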