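import Mathlib
import Pool.Agent.Zk65.BF3

/-!
The Brauer-Feit inequality for several subsections of a block.
-/

namespace Pool.Agent.Results.MP_a15589_al.SeveralSubsections

open Pool.Agent.H254R3.IN Pool.Agent.N20 Pool.Agent.Zk65.BF

/-- Let `B` be a `p`-block of a finite group `G` with defect group `D`, let `k(B)` be the number of
its irreducible characters and `k₀(B)` the number of those of height zero. Let `S` be a finite set
of pairwise non-conjugate `B`-subsections `s = (u, b)` (represented in such a way that conjugate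
elements `u` are equal), let `q s` be the order of the defect groups of `b` and let `R` be the
number of the major subsections in `S`, i.e. of those with `q s = |D|`. Then
`R k(B) + k₀(B) ∑ (|D| / q s)² ≤ |D|²`, the sum being taken over the other subsections in `S`.
If `S` has `r ≥ 2` elements, then also
`R (k(B) - 1) + (k₀(B) - 1) ∑ (|D| / q s)² ≤ (1 - 1 / r) |D|²`. -/
theorem result {G : Type} [Group G] [Finite G] {p : ℕ} (hp : p.Prime) (O : ValuationSubring ℂ)
    (hpO : (p : ℂ) ∈ O.nonunits) (B : Set (G → ℂ)) (hB : IsBlock O B) (D : Subgroup G)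
    (hD : IsDefectGroup p O B D)
    (S : Finset ((u : G) × Set (Subgroup.centralizer ({u} : Set G) → ℂ)))
    (q : ((u : G) × Set (Subgroup.centralizer ({u} : Set G) → ℂ)) → ℕ)
    (hS : ∀ s ∈ S, IsSub p O B s (q s))
    (hconj : ∀ s ∈ S, ∀ s' ∈ S, IsConj s.1 s'.1 → s.1 = s'.1) :
    ((S.filter fun s => q s = Nat.card D).card : ℝ) * (Nat.card B : ℝ) +
        (Nat.card {χ : G → ℂ // χ ∈ B ∧ HeightZero p D χ} : ℝ) *
          ∑ s ∈ S.filter (fun s => q s ≠ Nat.card D), ((Nat.card D : ℝ) / (q s : ℝ)) ^ 2 ≤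
      (Nat.card D : ℝ) ^ 2 ∧
    (2 ≤ S.card →
      ((S.filter fun s => q s = Nat.card D).card : ℝ) * ((Nat.card B : ℝ) - 1) +
        ((Nat.card {χ : G → ℂ // χ ∈ B ∧ HeightZero p D χ} : ℝ) - 1) *
          ∑ s ∈ S.filter (fun s => q s ≠ Nat.card D), ((Nat.card D : ℝ) / (q s : ℝ)) ^ 2 ≤
      (1 - 1 / (S.card : ℝ)) * (Nat.card D : ℝ) ^ 2) := by
  have := Fintype.ofFinite G
  haveI : Fact p.Prime := ⟨hp⟩
  have hD0 : (0 : ℝ) < Nat.card D := by exact_mod_cast Nat.card_pos
  obtain ⟨h1, h2⟩ := several hpO hB hD S q hS hconj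
  have key : ∀ c : ℝ, (∑ s ∈ S, (((good p D B (q s)).card : ℝ) - c) / (q s : ℝ) ^ 2) *
      (Nat.card D : ℝ) ^ 2 =
      ((S.filter fun s => q s = Nat.card D).card : ℝ) * ((Nat.card B : ℝ) - c) +
        ((Nat.card {χ : G → ℂ // χ ∈ B ∧ HeightZero p D χ} : ℝ) - c) *
          ∑ s ∈ S.filter (fun s => q s ≠ Nat.card D), ((Nat.card D : ℝ) / (q s : ℝ)) ^ 2 := by
    intro c
    rw [← Finset.sum_filter_add_sum_filter_not S (fun s => q s = Nat.card D), add_mul]
    congr 1
    · rw [Finset.sum_mul, Finset.sum_congr rfl (g := fun _ => (Nat.card B : ℝ) - c),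
        Finset.sum_const, nsmul_eq_mul]
      intro s hs
      have h3 := (Finset.mem_filter.mp hs).2
      rw [h3, good_major hB]
      field_simp
    · rw [Finset.sum_mul, Finset.mul_sum]
      refine Finset.sum_congr rfl fun s hs => ?_
      have h3 := (Finset.mem_filter.mp hs).2
      rw [good_minor hB h3, div_pow]
      ring
  constructor
  · have h3 := key 0
    simp only [sub_zero] at h3
    rw [← h3]
    calc _ ≤ 1 * (Nat.card D : ℝ) ^ 2 := mul_le_mul_of_nonneg_right h1 (by positivity)
      _ = _ := one_mul _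
  · intro hr
    rw [← key 1]
    exact mul_le_mul_of_nonneg_right (h2 hr) (by positivity)

end Pool.Agent.Results.MP_a15589_al.SeveralSubsections
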